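import Pool.Agent.MWGI.StmtsE

/-!
# Row TLE of block MWGI (MP_23468a_al): the left state
-/

namespace Pool.Agent.MWGI.H46

open Pool.Agent.Helper14_MV Pool.Agent.Helper2_MV Pool.Agent.MVO Pool.Agent.MWL Pool.Agent.MWS
  Pool.Agent.MWH

/-- the base is monotone -/
theorem bi_mono46 {n : ℕ} {β θ : FIC} (h : BI n (RR β)) (hle : β ≤ θ) : BI n (RR θ) where
  pos := h.pos
  per := hle _ _ h.per
  r := hle _ _ h.r
  hh := hle _ _ h.hh
  rn := hle _ _ h.rn
  l := hle _ _ h.l
  it := fun p w w' q x hm => hle _ _ (h.it p w w' q x hm)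
  f := fun p q c r x y hm => hle _ _ (h.f p q c r x y hm)
  f' := fun p q c r x y hm => hle _ _ (h.f' p q c r x y hm)
  fe := fun p q w r x a b h1 h2 h3 hm => hle _ _ (h.fe p q w r x a b h1 h2 h3 hm)
  fe' := fun p q w r x a b h1 h2 h3 hm => hle _ _ (h.fe' p q w r x a b h1 h2 h3 hm)

/-- the number of the `x` before the first `a` is at most the number of the `x` -/
theorem cb_le46 (l : List ℕ) (x a : ℕ) : cb l x a ≤ l.count x :=
  List.Sublist.count_le x (List.takeWhile_sublist _)

theorem tle (hT : TypStmt) (hH : HybStmt) (hZ : Rtz0Stmt) (hNR : NrwStmt) (hNL : NwlStmt)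
    (hML : MwlStmt) (hC : CsbStmt) (hM2 : Mv2Stmt) : TleStmt := by
  intro n β hB k B B' hF i x a hik hxa hx ha
  by_cases hs : (cb (B i) x a = 0 ↔ cb (B' i) x a = 0)
  · exact ⟨[], fun e he => absurd he List.not_mem_nil, fun θ _ _ =>
      ⟨fun _ e he => absurd he List.not_mem_nil, fun _ h => absurd hs h⟩⟩
  obtain ⟨hty1, hty2⟩ := hT n k B B' hF i hik
  obtain ⟨hNx, hxe⟩ := hty1 x hx
  obtain ⟨hNa, p, hpk, hpi, hap⟩ := hty2 a ha
  have hip : i ≠ p := fun e => hpi e.symm
  have hapc : (B p).count a = 1 := by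
    rw [hap p hpk, if_pos (Or.inr rfl)]
  have hamem : a ∈ B p := List.count_pos_iff.1 (by omega)
  obtain ⟨C, hCok, hCi, hCpre, hCsuf, hCm, hCact⟩ := hH n k B B' hF i hik
  by_cases hxp : x ∈ B p
  · refine ⟨[], fun e he => absurd he List.not_mem_nil, fun θ hle _ =>
      ⟨fun _ e he => absurd he List.not_mem_nil, ?_⟩⟩
    intro _ _ H haH
    have hBθ := bi_mono46 hB hle
    have h1 := hC n k θ C hBθ hCok i p x a hik hpk hip hxa ((hCm p hpk x).2 hxp)
      ((hCm p hpk a).2 hamem) H
    rw [hCpre, hCsuf] at h1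
    exact hM2 n k θ hBθ H (pre B' i) (suf B i (k - i)) x a haH
      (fun A D _ hok => h1 A D hok)
  have hAct : Act k B i p x a :=
    { ik := hik
      pk := hpk
      ip := hip
      nx := hNx
      na := hNa
      xa := hxa
      hx := hxe
      xi := hx
      xp := hxp
      ai := ha
      ap := hapc
      az := by
        intro j hj hji hjp hm
        have h1 := hap j hj
        rw [if_neg (by rintro (h | h); exacts [hji h, hjp h])] at h1
        exact absurd (List.count_pos_iff.2 hm) (by omega) }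
  obtain ⟨k', i', p', hi'k', hp'k', hip', hE⟩ := hZ n k i p (Zx B x) hik hpk hip
  refine ⟨[Ed.le k' i' p'], fun e he => ?_, fun θ hle _ => ⟨fun h e he => ?_, fun h => ?_⟩⟩
  · rw [List.mem_singleton] at he
    subst he
    exact ⟨hi'k', hp'k', hip'⟩
  · rw [List.mem_singleton] at he
    subst he
    have hBθ := bi_mono46 hB hle
    have hw := hNR n k θ B B' hBθ hF h i p x a hAct
    have hx' : 2 ≤ (B' i).count x := by
      rcases hF.eq x hNx i hik with h1 | ⟨_, h1, _⟩
      · have h2 : (B i).count x = (B' i).count x := h1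
        omega
      · exact h1
    have hc1 := cb_le46 (B i) x a
    have hc2 := cb_le46 (B' i) x a
    have hLe : Le n k i p (Zx B x) (RR θ) := by
      by_cases h0 : cb (B i) x a = 0
      · have h0' : cb (B' i) x a ≠ 0 := fun h1 => hs ⟨fun _ => h1, fun _ => h0⟩
        rw [h0] at hw
        exact hNL n k i p θ (Zx B x) hBθ hik hpk hip ((B i).count x - 0) (cb (B' i) x a)
          ((B' i).count x - cb (B' i) x a) (by omega) (by omega) (by omega) hw
      · have h0' : cb (B' i) x a = 0 := by
          by_contra h1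
          exact hs ⟨fun h2 => absurd h2 h0, fun h2 => absurd h2 h1⟩
        rw [h0'] at hw
        exact hNL n k i p θ (Zx B x) hBθ hik hpk hip ((B' i).count x - 0) (cb (B i) x a)
          ((B i).count x - cb (B i) x a) (by omega) (by omega) (by omega)
          (show RR θ _ _ from RR.symm hw)
    exact (hE θ 0 (2 * n) (2 * n) (2 * n)).1 hLe
  · intro _ H haH
    have hBθ := bi_mono46 hB hle
    have he : Wz n k' i' p' Za 0 (2 * n) (2 * n) (2 * n) (RR θ) :=
      h (Ed.le k' i' p') (List.mem_singleton.2 rfl)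
    have hLe : Le n k i p (Zx B x) (RR θ) := (hE θ 0 (2 * n) (2 * n) (2 * n)).2 he
    have h1 := hML n k θ C hBθ hCok i p x a (hCact p x a hAct) (Zx B x)
      (fun j hj _ _ => by
        rw [hCm j hj x]
        exact decide_eq_true_iff) hLe H haH
    rw [hCpre, hCsuf] at h1
    exact h1

end Pool.Agent.MWGI.H46
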